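import Pool.Agent.Mg.F1ce666.G1d0d64

set_option autoImplicit false

open Pool.Agent.MP_1ce666_co

theorem Pool.Agent.Results.MP_1ce666_co.FibCount.result :
    ∀ n : ℕ, 1 ≤ n →
      Nat.card {π : Equiv.Perm (Fin n) // Avoids321 π ∧ ¬ ContainsArrow π} =
        Nat.fib (2 * n - 1) :=
  Pool.Agent.MP_1ce666_co.main
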